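import Pool.Agent.BilEnt.StmtDefs
import Pool.Agent.BilEnt.Final

/-!
# A convex billiard table with `C²` boundary and positive metric entropy (Q1 of MP_bd32bb_an)

Proof: docs of the team, `proof/MP_bd32bb_an_entropy`.  The boundary is `u ↦ exp (h u + i u)` where
`h` is a sample of a random function: independent small bumps on all scales plus one level of large
curvature disorder.  Orbits do not come back at very small scales before exponentially long times, so
the noise they meet is fresh; this makes the derivative cocycle almost additive, keeps the exponent of
the base scale, and a return map argument gives positive entropy.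
-/

set_option autoImplicit false

open MeasureTheory BilEnt

namespace Pool.Agent.Results.MP_bd32bb_an.PositiveEntropy

/-- There is a convex billiard table with `C²` boundary whose billiard map has positive metric
entropy with respect to the Liouville measure. -/
theorem result : ∃ (Y : Set ℂ) (L : ℝ) (c : ℝ → ℂ) (φ : ℝ × ℝ → ℝ × ℝ),
    IsBilliardTable Y L c ∧ IsBilliardMap Y L c φ ∧ IsProbabilityMeasure (liouville L) ∧
      MeasurePreserving φ (liouville L) (liouville L) ∧ 0 < KS (liouville L) φ :=
  BilEnt.final

end Pool.Agent.Results.MP_bd32bb_an.PositiveEntropy
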